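import Pool.Agent.Helper72.RA.Defs2

set_option autoImplicit false

namespace Pool.Agent.Helper72.RA

open Real Finset MeasureTheory Filter

open scoped Classical

namespace RA_ALPHA

theorem qi_pos {q : ℕ} (hq : 10 ^ 9 ≤ q) (k : ℕ) : 0 < qi q k := by
  unfold qi
  have : (0 : ℝ) < q := by
    have : 0 < q := lt_of_lt_of_le (by norm_num) hq
    exact_mod_cast this
  positivity

theorem qi_mono {q : ℕ} (hq : 10 ^ 9 ≤ q) {a b : ℕ} (h : a ≤ b) : qi q b ≤ qi q a := by
  unfold qi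
  have h1 : (1 : ℝ) ≤ q := by
    have : 1 ≤ q := le_trans (by norm_num) hq
    exact_mod_cast this
  exact inv_anti₀ (by positivity) (pow_le_pow_right₀ h1 h)

theorem qi_succ {q : ℕ} (hq : 10 ^ 9 ≤ q) (a : ℕ) : qi q (a + 1) ≤ qi q a / 10 ^ 9 := by
  unfold qi
  have h1 : (10 ^ 9 : ℝ) ≤ q := by exact_mod_cast hq
  have h0 : (0 : ℝ) < q := lt_of_lt_of_le (by norm_num) h1
  rw [pow_succ, mul_inv, div_eq_mul_inv]
  exact mul_le_mul_of_nonneg_left (inv_anti₀ (by norm_num) h1) (by positivity)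

theorem qi_zero (q : ℕ) : qi q 0 = 1 := by simp [qi]

theorem qi_small {q : ℕ} (hq : 10 ^ 9 ≤ q) {a : ℕ} (ha : 1 ≤ a) : qi q a ≤ 1 / 10 ^ 9 := by
  have h1 := qi_mono hq ha
  have h2 := qi_succ hq 0
  rw [qi_zero] at h2
  exact h1.trans h2

theorem bd_le {q m : ℕ} (hq : 10 ^ 9 ≤ q) (D : Lay q m) (i k : D.K) : bd D i k ≤ qi q 560 := by
  have h1 : qi q 992 ≤ qi q 560 := qi_mono hq (by norm_num)
  have h2 : qi q 955 ≤ qi q 560 := qi_mono hq (by norm_num)
  have h3 : ∀ k : D.K, tolK D k ≤ qi q 560 := by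
    intro k
    unfold tolK tolG
    split_ifs
    · exact h1
    · exact le_rfl
    · exact (qi_pos hq 560).le
  unfold bd
  split_ifs
  · exact max_le (h3 i) (h3 k)
  · exact h2

theorem sin_lo {x : ℝ} (h0 : 0 < x) (h1 : x ≤ 1) : 3 / 4 * x ≤ sin x := by
  have h2 := Real.sin_gt_sub_cube h0
  have : x ^ 3 ≤ x := by
    calc x ^ 3 ≤ x ^ 1 := pow_le_pow_of_le_one h0.le h1 (by norm_num)
      _ = _ := pow_one _
  linarith

theorem cos_gap {x y : ℝ} (hx : 0 ≤ x) (hxy : x < y) (hy : y ≤ 1) :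
    (y - x) * (x + y) / 4 ≤ cos x - cos y := by
  rw [Real.cos_sub_cos]
  have h3 : sin ((x - y) / 2) = - sin ((y - x) / 2) := by
    rw [← Real.sin_neg]; congr 1; ring
  rw [h3]
  have a1 : 3 / 4 * ((x + y) / 2) ≤ sin ((x + y) / 2) := sin_lo (by linarith) (by linarith)
  have a2 : 3 / 4 * ((y - x) / 2) ≤ sin ((y - x) / 2) := sin_lo (by linarith) (by linarith)
  have a3 : (3 / 4 * ((x + y) / 2)) * (3 / 4 * ((y - x) / 2)) ≤
      sin ((x + y) / 2) * sin ((y - x) / 2) :=
    mul_le_mul a1 a2 (by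
      have : 0 ≤ (y - x) := by linarith
      positivity) (by
      have : 0 ≤ 3 / 4 * ((x + y) / 2) := by
        have : 0 ≤ x + y := by linarith
        positivity
      linarith)
  have a4 : 0 ≤ (x + y) * (y - x) := mul_nonneg (by linarith) (by linarith)
  nlinarith

/-- angles in `(0, π)` are compared through their cosines -/
theorem lt_of_cos {x y : ℝ} (hx : 0 ≤ x) (hx2 : x ≤ π) (hy : 0 ≤ y) (hy2 : y ≤ π)
    (h : cos y < cos x) : x < y :=
  (Real.strictAntiOn_cos.lt_iff_gt ⟨hy, hy2⟩ ⟨hx, hx2⟩).1 h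

end RA_ALPHA

open RA_ALPHA in
theorem st_ALPHA (hang : ST_ANG) : ST_ALPHA := by
  filter_upwards [hang, eventually_ge_atTop (10 ^ 9)] with q hq hq9
  intro m hm1 hm2 D θ hG S
  have hpi1 := Real.pi_gt_d6
  have hpi2 := Real.pi_lt_d6
  have hW : WinOK D θ S.ta := fun k hk => ⟨S.ta_lo k hk, S.ta_hi k hk⟩
  obtain ⟨-, hq2⟩ := hq m hm1 hm2 D
  obtain ⟨hA1, hA2, hA3, hA4, hA5, hA6⟩ := hq2 θ S.ta hW
  have hal : ∀ k, k ≠ D.sv → S.al k = θ (S.ta k) := fun k hk => by
    unfold StB.al; rw [if_neg hk]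
  have hthv : D.ty D.hv = Ty.h0 := (D.ty_h0 D.hv).2 rfl
  have hne : D.hv ≠ D.sv := by
    intro h
    have h1 := (D.ty_s D.hv).2 h
    rw [hthv] at h1
    exact absurd h1 (by decide)
  have hFhv : ¬ isF D D.hv := by
    rintro (h | ⟨h, -⟩)
    · rw [hthv] at h; exact absurd h (by decide)
    · rw [hthv] at h; exact absurd h (by decide)
  have q560 : qi q 560 ≤ 1 / 10 ^ 9 := qi_small hq9 (by norm_num)
  have q560' := qi_pos hq9 560
  have q23 := qi_pos hq9 23
  have hGp := hG.pos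
  have hGt : ∀ t, θ t < π := fun t => (hG.top t).trans (by linarith [qi_pos hq9 2005])
  -- the basic estimate for `tau`
  have htau : ∀ i k, opR D i k →
      |cos (θ (S.tau s(i, k))) - cos (θ (S.ta i)) * cos (θ (S.ta k))| ≤ qi q 560 := by
    intro i k hik
    refine (S.tau_n i k hik).trans ?_
    have h1 : 0 ≤ sin (θ (S.ta i)) := Real.sin_nonneg_of_nonneg_of_le_pi (hGp _).le (hGt _).le
    have h2 : 0 ≤ sin (θ (S.ta k)) := Real.sin_nonneg_of_nonneg_of_le_pi (hGp _).le (hGt _).le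
    have h3 : sin (θ (S.ta i)) * sin (θ (S.ta k)) ≤ 1 :=
      mul_le_one₀ (Real.sin_le_one _) h2 (Real.sin_le_one _)
    have h4 := bd_le hq9 D i k
    calc bd D i k * (sin (θ (S.ta i)) * sin (θ (S.ta k))) ≤
        qi q 560 * (sin (θ (S.ta i)) * sin (θ (S.ta k))) :=
          mul_le_mul_of_nonneg_right h4 (mul_nonneg h1 h2)
      _ ≤ qi q 560 * 1 := mul_le_mul_of_nonneg_left h3 q560'.le
      _ = qi q 560 := mul_one _
  have hcosk : ∀ k, k ≠ D.sv → 0 ≤ cos (θ (S.ta k)) := fun k hk =>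
    Real.cos_nonneg_of_neg_pi_div_two_le_of_le (by linarith [hGp (S.ta k)])
      (by linarith [(hA1 k hk).2.2.1])
  have hX : ∀ k, D.ty k = Ty.h0 ∨ D.ty k = Ty.xp ∨ D.ty k = Ty.x0 → k ≠ D.sv := by
    intro k hk h
    have h1 := (D.ty_s k).2 h
    rw [h1] at hk
    rcases hk with h | h | h <;> exact absurd h (by decide)
  have h4 : ∀ k, D.ty k = Ty.h0 ∨ D.ty k = Ty.xp ∨ D.ty k = Ty.x0 →
      49 / 100 ≤ S.al k ∧ S.al k ≤ 101 / 100 ∧ 21 / 10 ≤ θ (S.tb k) ∧ θ (S.tb k) ≤ 27 / 10 := by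
    intro k hk
    have hks := hX k hk
    obtain ⟨h1, h2⟩ := hA5 k hk
    have h3 := S.tb_lo k hks
    have h5 := S.tb_hi k hks
    have h6 : qi q 2530 ≤ 1 / 10 ^ 9 := qi_small hq9 (by norm_num)
    rw [hal k hks]
    refine ⟨by linarith, by linarith, ?_, ?_⟩
    · norm_num at h6 ⊢; linarith
    · norm_num at h6 ⊢; linarith
  refine ⟨?_, ?_, ?_, h4, ?_, ?_, ?_, ?_, ?_, ?_⟩
  · intro k hk
    rw [hal k hk]
    exact ⟨(hA1 k hk).1, (hA1 k hk).2.1, (hA1 k hk).2.2.1⟩
  · intro k hk hkh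
    have hop : opR D D.hv k := ⟨fun h => hkh h.symm, hne, hk, fun h => hFhv h.1⟩
    have h1 := abs_le.1 (htau D.hv k hop)
    have hbe : S.be k = θ (S.tau s(D.hv, k)) := by unfold StB.be; rw [if_neg hk]
    rw [hbe]
    obtain ⟨h2, h3⟩ := hA5 D.hv (Or.inl hthv)
    have c1 : cos (θ (S.ta D.hv)) ≤ cos (50 / 100) :=
      Real.cos_le_cos_of_nonneg_of_le_pi (by norm_num) (hGt _).le h2
    have c2 : 0 ≤ cos (θ (S.ta D.hv)) := hcosk _ hne
    have c3 : cos (θ (S.ta D.hv)) * cos (θ (S.ta k)) ≤ cos (50 / 100) := by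
      calc _ ≤ cos (θ (S.ta D.hv)) * 1 := mul_le_mul_of_nonneg_left (Real.cos_le_one _) c2
        _ ≤ _ := by rw [mul_one]; exact c1
    have c4 : 0 ≤ cos (θ (S.ta D.hv)) * cos (θ (S.ta k)) := mul_nonneg c2 (hcosk k hk)
    have hgap := cos_gap (x := 45 / 100) (y := 50 / 100) (by norm_num) (by norm_num) (by norm_num)
    constructor
    · apply le_of_lt
      apply lt_of_cos (by norm_num) (by linarith) (hGp _).le (hGt _).le
      norm_num at hgap q560 ⊢
      linarith
    · apply le_of_lt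
      apply lt_of_cos (hGp _).le (hGt _).le (by norm_num) (by linarith)
      have c5 : cos (158 / 100) ≤ - (3 / 4 * (9 / 1000)) := by
        have e : cos (158 / 100) = - sin (158 / 100 - π / 2) := by
          rw [Real.sin_sub_pi_div_two, neg_neg]
        rw [e]
        have h5 : 3 / 4 * (158 / 100 - π / 2) ≤ sin (158 / 100 - π / 2) :=
          sin_lo (by linarith) (by linarith)
        linarith
      norm_num at q560 c5 ⊢
      linarith
  · have hbe : S.be D.sv = θ (S.tb D.hv) := by unfold StB.be; rw [if_pos rfl]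
    rw [hbe]
    exact ⟨(h4 D.hv (Or.inl hthv)).2.2.1, (h4 D.hv (Or.inl hthv)).2.2.2⟩
  · intro i k hi hk hlev hop
    have hFk : isF D k := Or.inl hk
    have hhi : high D i := by
      refine ⟨hi, ?_⟩
      by_contra hlt
      push Not at hlt
      exact hop.2.2.2 ⟨Or.inr ⟨hi, hlt⟩, hFk⟩
    obtain ⟨a1, a2⟩ := hA6 k hk hlev
    obtain ⟨-, -, a3⟩ := hA3 i hhi
    have h1 := abs_le.1 (htau i k hop)
    have c1 : cos (θ (S.ta k)) ≤ cos (78 / 100) :=
      Real.cos_le_cos_of_nonneg_of_le_pi (by norm_num) (hGt _).le a1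
    have c2 : cos (126 / 100) ≤ cos (θ (S.ta k)) :=
      Real.cos_le_cos_of_nonneg_of_le_pi (hGp _).le (by linarith) a2
    have c3 : 0 ≤ cos (θ (S.ta k)) := hcosk k hop.2.2.1
    have hgap := cos_gap (x := 70 / 100) (y := 78 / 100) (by norm_num) (by norm_num) (by norm_num)
    have c4 : cos (θ (S.ta i)) * cos (θ (S.ta k)) ≤ cos (78 / 100) := by
      calc _ ≤ 1 * cos (θ (S.ta k)) := mul_le_mul_of_nonneg_right (Real.cos_le_one _) c3
        _ ≤ _ := by rw [one_mul]; exact c1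
    have c5 : 99 / 100 * cos (126 / 100) ≤ cos (θ (S.ta i)) * cos (θ (S.ta k)) := by
      have c6 : 99 / 100 * cos (θ (S.ta k)) ≤ cos (θ (S.ta i)) * cos (θ (S.ta k)) :=
        mul_le_mul_of_nonneg_right a3 c3
      linarith
    have c7 : 3 / 4 * (31 / 100) ≤ cos (126 / 100) := by
      have e : cos (126 / 100) = sin (π / 2 - 126 / 100) := by rw [Real.sin_pi_div_two_sub]
      rw [e]
      have h5 : 3 / 4 * (π / 2 - 126 / 100) ≤ sin (π / 2 - 126 / 100) :=
        sin_lo (by linarith) (by linarith)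
      linarith
    have c8 : cos (140 / 100) ≤ 171 / 1000 := by
      have e : cos (140 / 100) = sin (π / 2 - 140 / 100) := by rw [Real.sin_pi_div_two_sub]
      rw [e]
      have h5 : sin (π / 2 - 140 / 100) ≤ π / 2 - 140 / 100 := Real.sin_le (by linarith)
      linarith
    constructor
    · apply le_of_lt
      apply lt_of_cos (by norm_num) (by linarith) (hGp _).le (hGt _).le
      norm_num at hgap q560 ⊢
      linarith
    · apply le_of_lt
      apply lt_of_cos (hGp _).le (hGt _).le (by norm_num) (by linarith)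
      norm_num at q560 c7 c8 c5 ⊢
      linarith
  · intro k hk k' hk' heq
    by_contra hkk
    have w0 := qi_pos hq9 1401
    rcases D.win2 k k' hkk hk hk' with h | h
    · have h1 := S.ta_hi k hk
      have h2 := S.ta_lo k' hk'
      have h3 : ((D.win k : ℝ) + 2) ≤ D.win k' := by exact_mod_cast h
      rw [heq] at h1
      nlinarith
    · have h1 := S.ta_hi k' hk'
      have h2 := S.ta_lo k hk
      have h3 : ((D.win k' : ℝ) + 2) ≤ D.win k := by exact_mod_cast h
      rw [heq] at h2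
      nlinarith
  · intro k hk k' hk' heq
    by_contra hkk
    have w0 := qi_pos hq9 1401
    have w1 : qi q 2530 ≤ qi q 1401 / 10 ^ 9 :=
      (qi_mono hq9 (by norm_num : 1402 ≤ 2530)).trans (qi_succ hq9 1401)
    have w2 := qi_pos hq9 2530
    have b1 := S.tb_lo k hk
    have b2 := S.tb_hi k hk
    have b3 := S.tb_lo k' hk'
    have b4 := S.tb_hi k' hk'
    rw [heq] at b1 b2
    rcases D.win2 k k' hkk hk hk' with h | h
    · have h1 := S.ta_hi k hk
      have h2 := S.ta_lo k' hk'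
      have h3 : ((D.win k : ℝ) + 2) ≤ D.win k' := by exact_mod_cast h
      have h4 : ((D.win k : ℝ) + 2) * qi q 1401 ≤ D.win k' * qi q 1401 :=
        mul_le_mul_of_nonneg_right h3 w0.le
      norm_num at w1
      linarith
    · have h1 := S.ta_hi k' hk'
      have h2 := S.ta_lo k hk
      have h3 : ((D.win k' : ℝ) + 2) ≤ D.win k := by exact_mod_cast h
      have h4 : ((D.win k' : ℝ) + 2) * qi q 1401 ≤ D.win k * qi q 1401 :=
        mul_le_mul_of_nonneg_right h3 w0.le
      norm_num at w1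
      linarith
  · intro k hk heq
    have h1 := (hA1 k hk).2.2.1
    have h2 := S.ts_lo
    have h3 : qi q 1969 ≤ 1 / 10 ^ 9 := qi_small hq9 (by norm_num)
    rw [heq] at h1
    norm_num at h3
    linarith
  · intro k hk heq
    have h1 := (hA1 k hk).2.1
    have h2 := S.ts_lo
    have h3 : qi q 1969 ≤ qi q 1352 := qi_mono hq9 (by norm_num)
    have h4 := S.tb_lo k hk
    rw [heq] at h4
    linarith
  · intro e he heq
    obtain ⟨-, i, k, rfl, hop⟩ : e ∈ (univ : Finset (Sym2 D.K)) ∧ ∃ i k, e = s(i, k) ∧ opR D i k := by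
      have := he
      unfold OP at this
      rw [Finset.mem_filter] at this
      exact this
    have h1 := abs_le.1 (htau i k hop)
    have h2 := S.ts_lo
    have h3 : qi q 1969 ≤ 1 / 10 ^ 9 := qi_small hq9 (by norm_num)
    have c1 : 0 ≤ cos (θ (S.ta i)) * cos (θ (S.ta k)) :=
      mul_nonneg (hcosk i hop.2.1) (hcosk k hop.2.2.1)
    rw [heq] at h1
    have c2 : cos (θ S.ts) ≤ cos 3 :=
      Real.cos_le_cos_of_nonneg_of_le_pi (by norm_num) (hGt _).le (by norm_num at h3; linarith)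
    have c3 : cos 3 ≤ - (3 / 4) := by
      have e1 : cos 3 = - cos (π - 3) := by rw [Real.cos_pi_sub, neg_neg]
      rw [e1]
      have := Real.one_sub_sq_div_two_le_cos (x := π - 3)
      nlinarith
    norm_num at q560
    linarith

end Pool.Agent.Helper72.RA
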