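import Pool.Agent.Helper72.RA.Defs2

set_option autoImplicit false

namespace Pool.Agent.Helper72.RA

open Real Finset MeasureTheory Filter

open scoped Classical

namespace RA_ASSIGN

variable {q m : ℕ} {D : Lay q m} {θ : Fin (NN m) → ℝ}

/-- slots -/
abbrev Slot (D : Lay q m) : Type := D.K ⊕ D.K ⊕ {e : Sym2 D.K // ¬ e.IsDiag}

theorem opR_symm {i k : D.K} (h : opR D i k) : opR D k i :=
  ⟨h.1.symm, h.2.2.1, h.2.1, fun h' => h.2.2.2 ⟨h'.2, h'.1⟩⟩

theorem mem_OP {i k : D.K} : s(i, k) ∈ OP D ↔ opR D i k := by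
  unfold OP
  rw [Finset.mem_filter]
  constructor
  · rintro ⟨-, i', k', h, hop⟩
    rcases Sym2.eq_iff.1 h with ⟨rfl, rfl⟩ | ⟨rfl, rfl⟩
    · exact hop
    · exact opR_symm hop
  · intro h
    exact ⟨Finset.mem_univ _, i, k, rfl, h⟩

theorem card_slot (hm : 2 ≤ m) : Fintype.card (Slot D) = Fintype.card (Fin (NN m)) := by
  rw [Fintype.card_sum, Fintype.card_sum, Sym2.card_subtype_not_diag, Fintype.card_fin, D.card_K]
  obtain ⟨k, rfl⟩ : ∃ k, m = k + 2 := ⟨m - 2, by omega⟩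
  unfold NN
  have h1 : (k + 2).choose 2 = (k + 1) + (k + 1).choose 2 := by
    rw [Nat.choose_succ_succ' (k + 1) 1, Nat.choose_one_right]
  have h2 : (k + 1).choose 2 = k + k.choose 2 := by
    rw [Nat.choose_succ_succ' k 1, Nat.choose_one_right]
  rw [h1, h2]
  simp only [Nat.add_sub_cancel]
  omega

/-- the value of a pair slot -/
noncomputable def fp (S : StB D θ) (ep : D.K → Option (Fin (NN m)))
    (hg hx : Fin (NN m) → D.K) (e : Sym2 D.K) : Fin (NN m) :=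
  if h : ∃ t ∈ mids S, e = s(hg t, hx t) then Classical.choose h
  else if h' : ∃ k, k ≠ D.sv ∧ e = s(D.sv, k) then
    (ep (Classical.choose h')).getD (S.tb (Classical.choose h'))
  else S.tau e

/-- the value of a slot -/
noncomputable def fs (S : StB D θ) (ep e0 : D.K → Option (Fin (NN m))) (tσ : D.K → Fin (NN m))
    (hg hx : Fin (NN m) → D.K) : Slot D → Fin (NN m)
  | Sum.inl k => if k = D.sv then S.ts else S.ta k
  | Sum.inr (Sum.inl k) => (e0 k).getD (tσ k)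
  | Sum.inr (Sum.inr e) => fp S ep hg hx e.1

/-- the fixed slots -/
def fx (S : StB D θ) (hg hx : Fin (NN m) → D.K) : Slot D → Prop
  | Sum.inl _ => True
  | Sum.inr (Sum.inl _) => True
  | Sum.inr (Sum.inr e) => (∃ t ∈ mids S, e.1 = s(hg t, hx t)) ∨
      (∃ k, k ≠ D.sv ∧ e.1 = s(D.sv, k)) ∨ e.1 ∈ OP D

end RA_ASSIGN

open RA_ASSIGN in
theorem st_ASSIGN (hext : ST_EXT) (hrc : ST_RCOUNT) (hoc : ST_OCOUNT) (halpha : ST_ALPHA)
    (hlev : ST_LEV) : ST_ASSIGN := by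
  filter_upwards [hrc, hoc, halpha, hlev] with q hrcq hocq halq hlevq
  intro m hm1 hm2 D θ hG S ep e0 hep1 hep2 hep3 he01 he02 he03 tσ hσ1 hσ2 hg hx hh1 hh2
  have hpi1 := Real.pi_gt_d6
  have hpi2 := Real.pi_lt_d6
  obtain ⟨hq9, -, -, -, -, -, -, -, -, -, -, htop, -, -⟩ := hlevq
  have hR := hrcq m hm1 hm2 D
  have hO := hocq m hm1 hm2 D
  obtain ⟨-, -, -, hal4, hal5, hta_inj, htb_inj, hta_ts, htb_ts, htau_ts⟩ := halq m hm1 hm2 D θ hG S
  -- sizes
  have hqR : (10 ^ 9 : ℝ) ≤ q := by exact_mod_cast hq9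
  have hq1 : (1 : ℝ) ≤ q := le_trans (by norm_num) hqR
  have hqm : q ≤ m := le_trans (by
    calc q = q ^ 1 := (pow_one q).symm
      _ ≤ q ^ 1000 := Nat.pow_le_pow_right (by omega) (by norm_num)) hm1
  have hmR : (10 ^ 9 : ℝ) ≤ m := by
    have : (q : ℝ) ≤ m := by exact_mod_cast hqm
    linarith
  have hqi : ∀ a, 1 ≤ a → qi q a ≤ 1 / 10 ^ 9 := by
    intro a ha
    unfold qi
    rw [one_div]
    apply inv_anti₀ (by norm_num)
    calc (10 ^ 9 : ℝ) ≤ q := hqR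
      _ = (q : ℝ) ^ 1 := (pow_one _).symm
      _ ≤ (q : ℝ) ^ a := pow_le_pow_right₀ hq1 ha
  have h1350 := hqi 1350 (by norm_num)
  have h1969 := hqi 1969 (by norm_num)
  have h9 := hqi 9 (by norm_num)
  have htop' : top q ≤ 1 / 10 ^ 9 := by
    norm_num at h1350 htop ⊢
    linarith
  norm_num at h1969 h9 htop'
  -- types
  have hsv : D.ty D.sv = Ty.s := (D.ty_s D.sv).2 rfl
  have hne_sv : ∀ k, D.ty k ≠ Ty.s → k ≠ D.sv := fun k hk h => hk (by rw [h]; exact hsv)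
  have hgsv : ∀ t ∈ mids S, hg t ≠ D.sv := fun t ht =>
    hne_sv _ (by rw [(hh1 t ht).1]; decide)
  have hxsv : ∀ t ∈ mids S, hx t ≠ D.sv := fun t ht =>
    hne_sv _ (by rw [(hh1 t ht).2.1]; decide)
  have hgx : ∀ t ∈ mids S, ∀ t' ∈ mids S, hg t ≠ hx t' := by
    intro t ht t' ht' h
    have h1 := (hh1 t ht).1
    rw [h, (hh1 t' ht').2.1] at h1
    exact absurd h1 (by decide)
  have hhost_inj : ∀ t ∈ mids S, ∀ t' ∈ mids S, s(hg t, hx t) = s(hg t', hx t') → t = t' := by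
    intro t ht t' ht' h
    rcases Sym2.eq_iff.1 h with ⟨h1, h2⟩ | ⟨h1, h2⟩
    · exact hh2 t ht t' ht' h1 h2
    · exact absurd h1 (hgx t ht t' ht')
  have hxp_sv : ∀ k, D.ty k = Ty.xp → k ≠ D.sv := fun k hk => hne_sv k (by rw [hk]; decide)
  -- used
  have hu_ts : S.ts ∈ S.used := by
    unfold StB.used
    simp
  have hu_ta : ∀ k, k ≠ D.sv → S.ta k ∈ S.used := by
    intro k hk
    unfold StB.used
    rw [Finset.mem_union, Finset.mem_union, Finset.mem_union]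
    exact Or.inl (Or.inl (Or.inr (Finset.mem_image.2 ⟨k, by simp [hk], rfl⟩)))
  have hu_tb : ∀ k, k ≠ D.sv → S.tb k ∈ S.used := by
    intro k hk
    unfold StB.used
    rw [Finset.mem_union, Finset.mem_union, Finset.mem_union]
    exact Or.inl (Or.inr (Finset.mem_image.2 ⟨k, by simp [hk], rfl⟩))
  have hu_tau : ∀ e ∈ OP D, S.tau e ∈ S.used := by
    intro e he
    unfold StB.used
    rw [Finset.mem_union]
    exact Or.inr (Finset.mem_image.2 ⟨e, he, rfl⟩)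
  have hu_cases : ∀ t ∈ S.used, t = S.ts ∨ (∃ k, k ≠ D.sv ∧ t = S.ta k) ∨
      (∃ k, k ≠ D.sv ∧ t = S.tb k) ∨ ∃ e ∈ OP D, t = S.tau e := by
    intro t ht
    unfold StB.used at ht
    rw [Finset.mem_union, Finset.mem_union, Finset.mem_union] at ht
    rcases ht with ((ht | ht) | ht) | ht
    · exact Or.inl (Finset.mem_singleton.1 ht)
    · obtain ⟨k, hk, rfl⟩ := Finset.mem_image.1 ht
      exact Or.inr (Or.inl ⟨k, (Finset.mem_filter.1 hk).2, rfl⟩)
    · obtain ⟨k, hk, rfl⟩ := Finset.mem_image.1 ht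
      exact Or.inr (Or.inr (Or.inl ⟨k, (Finset.mem_filter.1 hk).2, rfl⟩))
    · obtain ⟨e, he, rfl⟩ := Finset.mem_image.1 ht
      exact Or.inr (Or.inr (Or.inr ⟨e, he, rfl⟩))
  have hmid : ∀ t ∈ mids S, t ∉ S.used ∧
      ((top q ≤ θ t ∧ θ t < qi q 9) ∨ (top q ≤ π - θ t ∧ π - θ t < qi q 9)) := by
    intro t ht
    unfold mids at ht
    exact (Finset.mem_filter.1 ht).2
  have hσu : ∀ k, tσ k ∉ S.used := by
    intro k hk
    obtain ⟨h1, h2, h3⟩ := hσ1 k
    rcases hu_cases _ hk with h | ⟨k', hk', h⟩ | ⟨k', hk', h⟩ | ⟨e, he, h⟩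
    · have := S.ts_lo
      rw [h] at h3
      linarith
    · have := S.ta_pool k' hk'
      rw [h] at h1
      omega
    · have := S.tb_pool k' hk'
      rw [h] at h1
      omega
    · have := S.tau_pool e he
      rw [h] at h1
      omega
  -- values of pair slots
  have hfp_host : ∀ t ∈ mids S, fp S ep hg hx s(hg t, hx t) = t := by
    intro t ht
    have h : ∃ t' ∈ mids S, s(hg t, hx t) = s(hg t', hx t') := ⟨t, ht, rfl⟩
    unfold fp
    rw [dif_pos h]
    have h1 := Classical.choose_spec h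
    exact (hhost_inj t ht _ h1.1 h1.2).symm
  have hsv_nh : ∀ k, ¬ ∃ t ∈ mids S, s(D.sv, k) = s(hg t, hx t) := by
    rintro k ⟨t, ht, h⟩
    rcases Sym2.eq_iff.1 h with ⟨h1, -⟩ | ⟨h1, -⟩
    · exact hgsv t ht h1.symm
    · exact hxsv t ht h1.symm
  have hfp_sv : ∀ k, k ≠ D.sv → fp S ep hg hx s(D.sv, k) = (ep k).getD (S.tb k) := by
    intro k hk
    have h' : ∃ k', k' ≠ D.sv ∧ s(D.sv, k) = s(D.sv, k') := ⟨k, hk, rfl⟩
    unfold fp
    rw [dif_neg (hsv_nh k), dif_pos h']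
    have h1 := Classical.choose_spec h'
    have h2 : k = Classical.choose h' := by
      rcases Sym2.eq_iff.1 h1.2 with ⟨-, h3⟩ | ⟨h3, h4⟩
      · exact h3
      · exact absurd h4 hk
    rw [← h2]
  have hop_sv : ∀ e ∈ OP D, ¬ ∃ k, k ≠ D.sv ∧ e = s(D.sv, k) := by
    rintro e he ⟨k, hk, rfl⟩
    exact (mem_OP.1 he).2.1 rfl
  have hfp_op : ∀ e ∈ OP D, (¬ ∃ t ∈ mids S, e = s(hg t, hx t)) → fp S ep hg hx e = S.tau e := by
    intro e he hnh
    unfold fp
    rw [dif_neg hnh, dif_neg (hop_sv e he)]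
  -- the code of a target
  let code : Fin (NN m) → ℕ := fun t =>
    if t ∈ S.used then
      (if t = S.ts then 1 else if (t : ℕ) % 4 = 0 then 2 else if (t : ℕ) % 4 = 1 then 6 else 8)
    else
      (if 1 / 100 ≤ θ t ∧ θ t ≤ π - 1 / 100 then 3 else if θ t < top q then 4
        else if π - top q < θ t then 5 else 7)
  let P1 : Slot D → Fin (NN m) → Prop := fun s t => s = Sum.inl D.sv ∧ t = S.ts
  let P2 : Slot D → Fin (NN m) → Prop := fun s t => ∃ k, k ≠ D.sv ∧ s = Sum.inl k ∧ t = S.ta k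
  let P3 : Slot D → Fin (NN m) → Prop := fun s t => ∃ k, s = Sum.inr (Sum.inl k) ∧ t = tσ k
  let P4 : Slot D → Fin (NN m) → Prop := fun s t => ∃ k, s = Sum.inr (Sum.inl k) ∧ e0 k = some t
  let P5 : Slot D → Fin (NN m) → Prop := fun s t => ∃ k, ∃ hd : ¬ (s(D.sv, k)).IsDiag,
    s = Sum.inr (Sum.inr ⟨s(D.sv, k), hd⟩) ∧ ep k = some t
  let P6 : Slot D → Fin (NN m) → Prop := fun s t => ∃ k, ∃ hd : ¬ (s(D.sv, k)).IsDiag,
    k ≠ D.sv ∧ s = Sum.inr (Sum.inr ⟨s(D.sv, k), hd⟩) ∧ t = S.tb k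
  let P7 : Slot D → Fin (NN m) → Prop := fun s t => t ∈ mids S ∧
    ∃ hd : ¬ (s(hg t, hx t)).IsDiag, s = Sum.inr (Sum.inr ⟨s(hg t, hx t), hd⟩)
  let P8 : Slot D → Fin (NN m) → Prop := fun s t => ∃ e ∈ OP D, ∃ hd : ¬ e.IsDiag,
    s = Sum.inr (Sum.inr ⟨e, hd⟩) ∧ t = S.tau e
  have c1 : ∀ s t, P1 s t → code t = 1 := by
    rintro s t ⟨-, rfl⟩
    simp only [code, if_pos hu_ts, if_true]
  have c2 : ∀ s t, P2 s t → code t = 2 := by
    rintro s t ⟨k, hk, -, rfl⟩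
    simp only [code, if_pos (hu_ta k hk), if_neg (hta_ts k hk), if_pos (S.ta_pool k hk)]
  have c6 : ∀ s t, P6 s t → code t = 6 := by
    rintro s t ⟨k, -, hk, -, rfl⟩
    have h1 := S.tb_pool k hk
    have h0 : ¬ ((S.tb k : ℕ) % 4 = 0) := by omega
    simp only [code, if_pos (hu_tb k hk), if_neg (htb_ts k hk), if_neg h0, if_pos h1]
  have c8 : ∀ s t, P8 s t → code t = 8 := by
    rintro s t ⟨e, he, -, -, rfl⟩
    have h1 := S.tau_pool e he
    have h0 : ¬ ((S.tau e : ℕ) % 4 = 0) := by omega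
    have h2 : ¬ ((S.tau e : ℕ) % 4 = 1) := by omega
    simp only [code, if_pos (hu_tau e he), if_neg (htau_ts e he), if_neg h0, if_neg h2]
  have c3 : ∀ s t, P3 s t → code t = 3 := by
    rintro s t ⟨k, -, rfl⟩
    obtain ⟨-, h2, h3⟩ := hσ1 k
    simp only [code, if_neg (hσu k)]
    rw [if_pos ⟨h2, h3⟩]
  have c4 : ∀ s t, P4 s t → code t = 4 := by
    rintro s t ⟨k, -, hk⟩
    obtain ⟨-, h2, h3⟩ := he01 k t hk
    have h4 : ¬ (1 / 100 ≤ θ t ∧ θ t ≤ π - 1 / 100) := by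
      rintro ⟨h5, -⟩
      linarith
    simp only [code, if_neg h3]
    rw [if_neg h4, if_pos h2]
  have c5 : ∀ s t, P5 s t → code t = 5 := by
    rintro s t ⟨k, -, -, hk⟩
    obtain ⟨-, h2, h3⟩ := hep1 k t hk
    have h4 : ¬ (1 / 100 ≤ θ t ∧ θ t ≤ π - 1 / 100) := by
      rintro ⟨-, h5⟩
      linarith
    have h5 : ¬ (θ t < top q) := by linarith
    simp only [code, if_neg h3]
    rw [if_neg h4, if_neg h5, if_pos h2]
  have c7 : ∀ s t, P7 s t → code t = 7 := by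
    rintro s t ⟨ht, -⟩
    obtain ⟨h3, h2⟩ := hmid t ht
    have h4 : ¬ (1 / 100 ≤ θ t ∧ θ t ≤ π - 1 / 100) := by
      rintro ⟨h5, h6⟩
      rcases h2 with h2 | h2
      · linarith [h2.2]
      · linarith [h2.2]
    have h5 : ¬ (θ t < top q) := by
      rcases h2 with h2 | h2
      · linarith [h2.1]
      · linarith [h2.2]
    have h6 : ¬ (π - top q < θ t) := by
      rcases h2 with h2 | h2
      · linarith [h2.2]
      · linarith [h2.1]
    simp only [code, if_neg h3]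
    rw [if_neg h4, if_neg h5, if_neg h6]
  -- injectivity within each kind
  have i1 : ∀ s s' t, P1 s t → P1 s' t → s = s' := by
    rintro s s' t ⟨h, -⟩ ⟨h', -⟩
    rw [h, h']
  have i2 : ∀ s s' t, P2 s t → P2 s' t → s = s' := by
    rintro s s' t ⟨k, hk, h, ht⟩ ⟨k', hk', h', ht'⟩
    rw [h, h', hta_inj hk hk' (ht.symm.trans ht')]
  have i3 : ∀ s s' t, P3 s t → P3 s' t → s = s' := by
    rintro s s' t ⟨k, h, ht⟩ ⟨k', h', ht'⟩
    rw [h, h', hσ2 (ht.symm.trans ht')]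
  have i4 : ∀ s s' t, P4 s t → P4 s' t → s = s' := by
    rintro s s' t ⟨k, h, ht⟩ ⟨k', h', ht'⟩
    rw [h, h', he02 k k' t ht ht']
  have i5 : ∀ s s' t, P5 s t → P5 s' t → s = s' := by
    rintro s s' t ⟨k, hd, h, ht⟩ ⟨k', hd', h', ht'⟩
    have := hep2 k k' t ht ht'
    subst this
    rw [h, h']
  have i6 : ∀ s s' t, P6 s t → P6 s' t → s = s' := by
    rintro s s' t ⟨k, hd, hk, h, ht⟩ ⟨k', hd', hk', h', ht'⟩
    have := htb_inj hk hk' (ht.symm.trans ht')
    subst this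
    rw [h, h']
  have i7 : ∀ s s' t, P7 s t → P7 s' t → s = s' := by
    rintro s s' t ⟨-, hd, h⟩ ⟨-, hd', h'⟩
    rw [h, h']
  have i8 : ∀ s s' t, P8 s t → P8 s' t → s = s' := by
    rintro s s' t ⟨e, he, hd, h, ht⟩ ⟨e', he', hd', h', ht'⟩
    have := S.tau_inj he he' (ht.symm.trans ht')
    subst this
    rw [h, h']
  let PP : Slot D → Fin (NN m) → Prop := fun s t =>
    P1 s t ∨ P2 s t ∨ P3 s t ∨ P4 s t ∨ P5 s t ∨ P6 s t ∨ P7 s t ∨ P8 s t
  have hPPc : ∀ s t, PP s t → (P1 s t ∧ code t = 1) ∨ (P2 s t ∧ code t = 2) ∨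
      (P3 s t ∧ code t = 3) ∨ (P4 s t ∧ code t = 4) ∨ (P5 s t ∧ code t = 5) ∨
      (P6 s t ∧ code t = 6) ∨ (P7 s t ∧ code t = 7) ∨ (P8 s t ∧ code t = 8) := by
    intro s t h
    rcases h with h | h | h | h | h | h | h | h
    · exact Or.inl ⟨h, c1 s t h⟩
    · exact Or.inr (Or.inl ⟨h, c2 s t h⟩)
    · exact Or.inr (Or.inr (Or.inl ⟨h, c3 s t h⟩))
    · exact Or.inr (Or.inr (Or.inr (Or.inl ⟨h, c4 s t h⟩)))
    · exact Or.inr (Or.inr (Or.inr (Or.inr (Or.inl ⟨h, c5 s t h⟩))))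
    · exact Or.inr (Or.inr (Or.inr (Or.inr (Or.inr (Or.inl ⟨h, c6 s t h⟩)))))
    · exact Or.inr (Or.inr (Or.inr (Or.inr (Or.inr (Or.inr (Or.inl ⟨h, c7 s t h⟩))))))
    · exact Or.inr (Or.inr (Or.inr (Or.inr (Or.inr (Or.inr (Or.inr ⟨h, c8 s t h⟩))))))
  have hPP : ∀ s s' t, PP s t → PP s' t → s = s' := by
    intro s s' t h h'
    have h2 := hPPc s t h
    have h2' := hPPc s' t h'
    clear h h'
    generalize code t = c at h2 h2'
    rcases h2 with ⟨h, rfl⟩ | ⟨h, rfl⟩ | ⟨h, rfl⟩ | ⟨h, rfl⟩ | ⟨h, rfl⟩ | ⟨h, rfl⟩ | ⟨h, rfl⟩ |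
      ⟨h, rfl⟩
    · rcases h2' with ⟨h', e'⟩ | ⟨h', e'⟩ | ⟨h', e'⟩ | ⟨h', e'⟩ | ⟨h', e'⟩ | ⟨h', e'⟩ |
        ⟨h', e'⟩ | ⟨h', e'⟩ <;> first | exact i1 _ _ _ h h' | exact absurd e' (by decide)
    · rcases h2' with ⟨h', e'⟩ | ⟨h', e'⟩ | ⟨h', e'⟩ | ⟨h', e'⟩ | ⟨h', e'⟩ | ⟨h', e'⟩ |
        ⟨h', e'⟩ | ⟨h', e'⟩ <;> first | exact i2 _ _ _ h h' | exact absurd e' (by decide)
    · rcases h2' with ⟨h', e'⟩ | ⟨h', e'⟩ | ⟨h', e'⟩ | ⟨h', e'⟩ | ⟨h', e'⟩ | ⟨h', e'⟩ |
        ⟨h', e'⟩ | ⟨h', e'⟩ <;> first | exact i3 _ _ _ h h' | exact absurd e' (by decide)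
    · rcases h2' with ⟨h', e'⟩ | ⟨h', e'⟩ | ⟨h', e'⟩ | ⟨h', e'⟩ | ⟨h', e'⟩ | ⟨h', e'⟩ |
        ⟨h', e'⟩ | ⟨h', e'⟩ <;> first | exact i4 _ _ _ h h' | exact absurd e' (by decide)
    · rcases h2' with ⟨h', e'⟩ | ⟨h', e'⟩ | ⟨h', e'⟩ | ⟨h', e'⟩ | ⟨h', e'⟩ | ⟨h', e'⟩ |
        ⟨h', e'⟩ | ⟨h', e'⟩ <;> first | exact i5 _ _ _ h h' | exact absurd e' (by decide)
    · rcases h2' with ⟨h', e'⟩ | ⟨h', e'⟩ | ⟨h', e'⟩ | ⟨h', e'⟩ | ⟨h', e'⟩ | ⟨h', e'⟩ |
        ⟨h', e'⟩ | ⟨h', e'⟩ <;> first | exact i6 _ _ _ h h' | exact absurd e' (by decide)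
    · rcases h2' with ⟨h', e'⟩ | ⟨h', e'⟩ | ⟨h', e'⟩ | ⟨h', e'⟩ | ⟨h', e'⟩ | ⟨h', e'⟩ |
        ⟨h', e'⟩ | ⟨h', e'⟩ <;> first | exact i7 _ _ _ h h' | exact absurd e' (by decide)
    · rcases h2' with ⟨h', e'⟩ | ⟨h', e'⟩ | ⟨h', e'⟩ | ⟨h', e'⟩ | ⟨h', e'⟩ | ⟨h', e'⟩ |
        ⟨h', e'⟩ | ⟨h', e'⟩ <;> first | exact i8 _ _ _ h h' | exact absurd e' (by decide)
  have q1 : ∀ s t, P1 s t → PP s t := fun s t h => Or.inl h
  have q2 : ∀ s t, P2 s t → PP s t := fun s t h => Or.inr (Or.inl h)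
  have q3 : ∀ s t, P3 s t → PP s t := fun s t h => Or.inr (Or.inr (Or.inl h))
  have q4 : ∀ s t, P4 s t → PP s t := fun s t h => Or.inr (Or.inr (Or.inr (Or.inl h)))
  have q5 : ∀ s t, P5 s t → PP s t := fun s t h =>
    Or.inr (Or.inr (Or.inr (Or.inr (Or.inl h))))
  have q6 : ∀ s t, P6 s t → PP s t := fun s t h =>
    Or.inr (Or.inr (Or.inr (Or.inr (Or.inr (Or.inl h)))))
  have q7 : ∀ s t, P7 s t → PP s t := fun s t h =>
    Or.inr (Or.inr (Or.inr (Or.inr (Or.inr (Or.inr (Or.inl h))))))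
  have q8 : ∀ s t, P8 s t → PP s t := fun s t h =>
    Or.inr (Or.inr (Or.inr (Or.inr (Or.inr (Or.inr (Or.inr h))))))
  -- the fixed slots have these descriptors
  have hhostPP : ∀ e : Sym2 D.K, ∀ hd : ¬ e.IsDiag, (∃ t ∈ mids S, e = s(hg t, hx t)) →
      PP (Sum.inr (Sum.inr ⟨e, hd⟩)) (fp S ep hg hx e) := by
    rintro e hd ⟨t, ht, rfl⟩
    rw [hfp_host t ht]
    exact q7 _ _ ⟨ht, hd, rfl⟩
  have hfsPP : ∀ z, fx S hg hx z → PP z (fs S ep e0 tσ hg hx z) := by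
    rintro (k | k | ⟨e, hd⟩) hz
    · by_cases hk : k = D.sv
      · apply q1
        refine ⟨by rw [hk], ?_⟩
        simp only [fs, if_pos hk]
      · apply q2
        refine ⟨k, hk, rfl, ?_⟩
        simp only [fs, if_neg hk]
    · rcases hk : e0 k with _ | t
      · apply q3
        refine ⟨k, rfl, ?_⟩
        simp only [fs, hk, Option.getD_none]
      · apply q4
        refine ⟨k, rfl, ?_⟩
        simp only [fs, hk, Option.getD_some]
    · change PP _ (fp S ep hg hx e)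
      by_cases hh : ∃ t ∈ mids S, e = s(hg t, hx t)
      · exact hhostPP e hd hh
      · rcases hz with hz | ⟨k, hk, hz⟩ | hz
        · exact absurd hz hh
        · simp only at hz
          subst hz
          rw [hfp_sv k hk]
          rcases hk' : ep k with _ | t
          · apply q6
            exact ⟨k, hd, hk, rfl, rfl⟩
          · apply q5
            exact ⟨k, hd, rfl, hk'⟩
        · simp only at hz
          rw [hfp_op e hz hh]
          apply q8
          exact ⟨e, hz, hd, rfl, rfl⟩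
  -- the sets
  let Z : Finset (Slot D) := univ.filter fun z => fx S hg hx z
  let R : Finset (Slot D) := univ.filter fun z => ∃ e : Sym2 D.K, ∃ hd : ¬ e.IsDiag,
    z = Sum.inr (Sum.inr ⟨e, hd⟩) ∧ (∃ i k, e = s(i, k) ∧ i ≠ k ∧ restr D i k) ∧
      ¬ ∃ t ∈ mids S, e = s(hg t, hx t)
  let M : Finset (Fin (NN m)) := univ.filter fun t => 15 / 100 ≤ θ t ∧ θ t ≤ 136 / 100 ∧
    ∀ z ∈ Z, fs S ep e0 tσ hg hx z ≠ t
  have hFsv : ¬ isF D D.sv := by
    rintro (h | ⟨h, -⟩)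
    · rw [hsv] at h
      exact absurd h (by decide)
    · rw [hsv] at h
      exact absurd h (by decide)
  have hFnot : ∀ i k, isF D i → isF D k → ¬ (∃ k', k' ≠ D.sv ∧ s(i, k) = s(D.sv, k')) := by
    rintro i k hi hk ⟨k', -, h⟩
    rcases Sym2.eq_iff.1 h with ⟨h1, -⟩ | ⟨-, h1⟩
    · rw [h1] at hi
      exact hFsv hi
    · rw [h1] at hk
      exact hFsv hk
  have hFnop : ∀ i k, isF D i → isF D k → s(i, k) ∉ OP D := by
    intro i k hi hk h
    exact (mem_OP.1 h).2.2.2 ⟨hi, hk⟩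
  have hdisj : Disjoint Z R := by
    rw [Finset.disjoint_left]
    rintro z hz hr
    obtain ⟨e, hd, rfl, ⟨i, k, rfl, hik, hres⟩, hnh⟩ := (Finset.mem_filter.1 hr).2
    rcases (Finset.mem_filter.1 hz).2 with h | h | h
    · exact hnh h
    · exact hFnot i k hres.1 hres.2.1 h
    · exact hFnop i k hres.1 hres.2.1 h
  have hinj : Set.InjOn (fs S ep e0 tσ hg hx) (Z : Set (Slot D)) := by
    intro z hz z' hz' h
    have h1 := hfsPP z (Finset.mem_filter.1 (Finset.mem_coe.1 hz)).2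
    have h2 := hfsPP z' (Finset.mem_filter.1 (Finset.mem_coe.1 hz')).2
    rw [h] at h1
    exact hPP _ _ _ h1 h2
  have hRcard : (R.card : ℝ) ≤ 170 / 1000 * (m : ℝ) ^ 2 := by
    refine le_trans ?_ hR
    have : R.card ≤ (univ.filter fun e : Sym2 D.K =>
        ∃ i k, e = s(i, k) ∧ i ≠ k ∧ restr D i k).card := by
      apply Finset.card_le_card_of_injOn (fun z : Slot D => match z with
        | Sum.inr (Sum.inr e) => e.1
        | _ => s(D.sv, D.sv))
      · intro z hz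
        obtain ⟨e, hd, rfl, h, -⟩ := (Finset.mem_filter.1 (Finset.mem_coe.1 hz)).2
        exact Finset.mem_coe.2 (Finset.mem_filter.2 ⟨Finset.mem_univ _, h⟩)
      · intro z hz z' hz' h
        obtain ⟨e, hd, rfl, -, -⟩ := (Finset.mem_filter.1 (Finset.mem_coe.1 hz)).2
        obtain ⟨e', hd', rfl, -, -⟩ := (Finset.mem_filter.1 (Finset.mem_coe.1 hz')).2
        simp only at h
        subst h
        rfl
    exact_mod_cast this
  have hused : (S.used.card : ℝ) ≤ 2 * m + 1 / 1000 * (m : ℝ) ^ 2 := by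
    have h1 : S.used.card ≤ 1 + (m - 2) + (m - 2) + (OP D).card := by
      unfold StB.used
      refine le_trans (Finset.card_union_le _ _) (Nat.add_le_add ?_ Finset.card_image_le)
      refine le_trans (Finset.card_union_le _ _) (Nat.add_le_add ?_ ?_)
      · refine le_trans (Finset.card_union_le _ _) (Nat.add_le_add ?_ ?_)
        · rw [Finset.card_singleton]
        · refine le_trans Finset.card_image_le ?_
          rw [← D.card_K]
          exact Finset.card_le_univ _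
      · refine le_trans Finset.card_image_le ?_
        rw [← D.card_K]
        exact Finset.card_le_univ _
    have h2 : 1 + (m - 2) + (m - 2) + (OP D).card ≤ 2 * m + (OP D).card := by
      have : 2 ≤ m := by
        have : (2 : ℝ) ≤ m := by linarith
        exact_mod_cast this
      omega
    have h3 : (S.used.card : ℝ) ≤ 2 * m + ((OP D).card : ℝ) := by
      exact_mod_cast le_trans h1 h2
    linarith
  have hm2' : 2 ≤ m := by
    have : (2 : ℝ) ≤ m := by linarith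
    exact_mod_cast this
  have hIcard : 49 / 50 * ((m : ℝ) ^ 2 / 8 * ((136 / 100 - 15 / 100) / π)) * 4 ≤
      ((univ.filter fun t : Fin (NN m) => 15 / 100 ≤ θ t ∧ θ t ≤ 136 / 100).card : ℝ) := by
    have h1 : ∀ j < 4, 49 / 50 * ((m : ℝ) ^ 2 / 8 * ((136 / 100 - 15 / 100) / π)) ≤
        (cnt j θ (15 / 100) (136 / 100) : ℝ) := fun j hj =>
      (hG.reg j hj (15 / 100) (136 / 100) (by norm_num) (by linarith)
        (le_trans (hqi 1970 (by norm_num)) (by norm_num))).1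
    have h2 : (univ.filter fun t : Fin (NN m) => 15 / 100 ≤ θ t ∧ θ t ≤ 136 / 100).card =
        ∑ j ∈ range 4, cnt j θ (15 / 100) (136 / 100) := by
      rw [Finset.card_eq_sum_card_fiberwise (f := fun t : Fin (NN m) => (t : ℕ) % 4)
        (t := range 4) (fun t _ => Finset.mem_coe.2 (Finset.mem_range.2
          (Nat.mod_lt _ (by norm_num))))]
      apply Finset.sum_congr rfl
      intro j _
      unfold cnt
      congr 1
      ext t
      simp only [Finset.mem_filter, Finset.mem_univ, true_and]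
      tauto
    rw [h2]
    push_cast
    rw [Finset.sum_range_succ, Finset.sum_range_succ, Finset.sum_range_succ,
      Finset.sum_range_one]
    have a0 := h1 0 (by norm_num)
    have a1 := h1 1 (by norm_num)
    have a2 := h1 2 (by norm_num)
    have a3 := h1 3 (by norm_num)
    linarith
  have hsub : (univ.filter fun t : Fin (NN m) => 15 / 100 ≤ θ t ∧ θ t ≤ 136 / 100) ⊆
      M ∪ (S.used ∪ univ.image tσ) := by
    intro t ht
    obtain ⟨h1, h2⟩ := (Finset.mem_filter.1 ht).2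
    by_cases hM : t ∈ M
    · exact Finset.mem_union_left _ hM
    · apply Finset.mem_union_right
      have h3 : ∃ z ∈ Z, fs S ep e0 tσ hg hx z = t := by
        by_contra h4
        push Not at h4
        exact hM (Finset.mem_filter.2 ⟨Finset.mem_univ _, h1, h2, h4⟩)
      obtain ⟨z, hz, rfl⟩ := h3
      have h5 := hfsPP z (Finset.mem_filter.1 hz).2
      generalize fs S ep e0 tσ hg hx z = t at h5 h1 h2
      rcases h5 with ⟨-, rfl⟩ | ⟨k, hk, -, rfl⟩ | ⟨k, -, rfl⟩ | ⟨k, -, hk⟩ | ⟨k, -, -, hk⟩ |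
        ⟨k, -, hk, -, rfl⟩ | ⟨hk, -⟩ | ⟨e, he, -, -, rfl⟩
      · exact Finset.mem_union_left _ hu_ts
      · exact Finset.mem_union_left _ (hu_ta k hk)
      · exact Finset.mem_union_right _ (Finset.mem_image_of_mem _ (Finset.mem_univ _))
      · have := (he01 k t hk).2.1
        linarith
      · have := (hep1 k t hk).2.1
        linarith
      · exact Finset.mem_union_left _ (hu_tb k hk)
      · rcases (hmid t hk).2 with h6 | h6
        · linarith [h6.2]
        · linarith [h6.2]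
      · exact Finset.mem_union_left _ (hu_tau e he)
  have hMcard : (R.card : ℝ) ≤ (M.card : ℝ) := by
    have h1 := Finset.card_le_card hsub
    have h2 : (M ∪ (S.used ∪ univ.image tσ)).card ≤ M.card + (S.used.card + m) := by
      refine le_trans (Finset.card_union_le _ _) (Nat.add_le_add le_rfl ?_)
      refine le_trans (Finset.card_union_le _ _) (Nat.add_le_add le_rfl ?_)
      refine le_trans Finset.card_image_le ?_
      rw [Finset.card_univ, D.card_K]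
      omega
    have h3 : ((univ.filter fun t : Fin (NN m) => 15 / 100 ≤ θ t ∧ θ t ≤ 136 / 100).card : ℝ) ≤
        M.card + (S.used.card + m) := by exact_mod_cast le_trans h1 h2
    have h4 : (188 / 1000 : ℝ) * (m : ℝ) ^ 2 ≤
        49 / 50 * ((m : ℝ) ^ 2 / 8 * ((136 / 100 - 15 / 100) / π)) * 4 := by
      have h5 : (385 / 1000 : ℝ) ≤ (136 / 100 - 15 / 100) / π := by
        rw [le_div_iff₀ Real.pi_pos]
        nlinarith
      have h6 : (0 : ℝ) ≤ (m : ℝ) ^ 2 := by positivity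
      nlinarith
    have h7 : (3 : ℝ) * m ≤ 1 / 1000 * (m : ℝ) ^ 2 := by nlinarith
    have h8 : (0 : ℝ) ≤ (m : ℝ) ^ 2 := by positivity
    nlinarith
  obtain ⟨F, hF1, hF2⟩ := hext (Slot D) (Fin (NN m)) (card_slot hm2') Z R M
    (fs S ep e0 tσ hg hx) hdisj hinj
    (fun z hz h => (Finset.mem_filter.1 h).2.2.2 z hz rfl) (by exact_mod_cast hMcard)
  have hFZ : ∀ z, fx S hg hx z → F z = fs S ep e0 tσ hg hx z := fun z hz =>
    hF1 z (Finset.mem_filter.2 ⟨Finset.mem_univ _, hz⟩)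
  have hnd : ∀ i k : D.K, i ≠ k → ¬ (s(i, k)).IsDiag := fun i k h h' =>
    h (Sym2.mk_isDiag_iff.1 h')
  -- every extreme target is used by a fixed slot
  have hextr : ∀ t, (θ t < qi q 9 ∨ π - qi q 9 < θ t) →
      ∃ z, fx S hg hx z ∧ fs S ep e0 tσ hg hx z = t := by
    intro t ht
    by_cases hu : t ∈ S.used
    · rcases hu_cases t hu with rfl | ⟨k, hk, rfl⟩ | ⟨k, hk, rfl⟩ | ⟨e, he, rfl⟩
      · exact ⟨Sum.inl D.sv, trivial, by simp [fs]⟩
      · exact ⟨Sum.inl k, trivial, by simp [fs, hk]⟩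
      · refine ⟨Sum.inr (Sum.inr ⟨s(D.sv, k), hnd _ _ hk.symm⟩), Or.inr (Or.inl ⟨k, hk, rfl⟩), ?_⟩
        change fp S ep hg hx s(D.sv, k) = _
        rw [hfp_sv k hk]
        rcases hk' : ep k with _ | t'
        · rfl
        · exfalso
          obtain ⟨hty, -, -⟩ := hep1 k t' hk'
          obtain ⟨-, -, h1, h2⟩ := hal4 k (Or.inr (Or.inl hty))
          rcases ht with ht | ht <;> linarith
      · have hd : ¬ e.IsDiag := by
          induction e using Sym2.ind with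
          | _ i k => exact hnd i k (mem_OP.1 he).1
        refine ⟨Sum.inr (Sum.inr ⟨e, hd⟩), Or.inr (Or.inr he), ?_⟩
        change fp S ep hg hx e = _
        by_cases hh : ∃ t ∈ mids S, e = s(hg t, hx t)
        · exfalso
          obtain ⟨t', ht', rfl⟩ := hh
          obtain ⟨h1, h2, h3⟩ := hh1 t' ht'
          obtain ⟨h4, h5⟩ := hal5 (hg t') (hx t') h1 h2 h3 (mem_OP.1 he)
          rcases ht with ht | ht <;> linarith
        · exact hfp_op e he hh
    · by_cases h1 : θ t < top q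
      · obtain ⟨k, hk⟩ := he03 t h1 hu
        exact ⟨Sum.inr (Sum.inl k), trivial, by simp [fs, hk]⟩
      · by_cases h2 : π - top q < θ t
        · obtain ⟨k, hk⟩ := hep3 t h2 hu
          have hk2 : k ≠ D.sv := hxp_sv k (hep1 k t hk).1
          refine ⟨Sum.inr (Sum.inr ⟨s(D.sv, k), hnd _ _ hk2.symm⟩),
            Or.inr (Or.inl ⟨k, hk2, rfl⟩), ?_⟩
          change fp S ep hg hx s(D.sv, k) = _
          rw [hfp_sv k hk2, hk, Option.getD_some]
        · have hmd : t ∈ mids S := by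
            unfold mids
            rw [Finset.mem_filter]
            refine ⟨Finset.mem_univ _, hu, ?_⟩
            rcases ht with ht | ht
            · exact Or.inl ⟨not_lt.1 h1, ht⟩
            · exact Or.inr ⟨by linarith [not_lt.1 h2], by linarith⟩
          have hne : hg t ≠ hx t := hgx t hmd t hmd
          refine ⟨Sum.inr (Sum.inr ⟨s(hg t, hx t), hnd _ _ hne⟩), Or.inl ⟨t, hmd, rfl⟩, ?_⟩
          exact hfp_host t hmd
  have hGv : ∀ e : Sym2 D.K, ∀ hd : ¬ e.IsDiag,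
      (if hd : e.IsDiag then S.ts else F (Sum.inr (Sum.inr ⟨e, hd⟩))) =
        F (Sum.inr (Sum.inr ⟨e, hd⟩)) := fun e hd => dif_neg hd
  refine ⟨fun e => if hd : e.IsDiag then S.ts else F (Sum.inr (Sum.inr ⟨e, hd⟩)), ?_, ?_, ?_,
    ?_, ?_⟩
  · intro t
    obtain ⟨z, rfl⟩ := F.surjective t
    rcases z with k | k | ⟨e, hd⟩
    · left
      exact ⟨k, hFZ _ trivial⟩
    · right
      left
      exact ⟨k, hFZ _ trivial⟩
    · right
      right
      induction e using Sym2.ind with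
      | _ i k =>
        exact ⟨i, k, fun h => hd (Sym2.mk_isDiag_iff.2 h), (hGv _ hd).symm⟩
  · intro k hk
    beta_reduce
    rw [hGv _ (hnd _ _ hk.symm), hFZ (Sum.inr (Sum.inr ⟨s(D.sv, k), hnd _ _ hk.symm⟩))
      (Or.inr (Or.inl ⟨k, hk, rfl⟩))]
    exact hfp_sv k hk
  · intro t ht
    beta_reduce
    rw [hGv _ (hnd _ _ (hgx t ht t ht)),
      hFZ (Sum.inr (Sum.inr ⟨s(hg t, hx t), hnd _ _ (hgx t ht t ht)⟩)) (Or.inl ⟨t, ht, rfl⟩)]
    exact hfp_host t ht
  · intro i k hop hnh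
    beta_reduce
    rw [hGv _ (hnd _ _ hop.1), hFZ (Sum.inr (Sum.inr ⟨s(i, k), hnd _ _ hop.1⟩))
      (Or.inr (Or.inr (mem_OP.2 hop)))]
    exact hfp_op _ (mem_OP.2 hop) (fun ⟨t, ht, h⟩ => hnh t ht h)
  · intro i k hik hFi hFk hnh
    beta_reduce
    rw [hGv _ (hnd _ _ hik)]
    by_cases hres : restr D i k
    · left
      have h1 := hF2 (Sum.inr (Sum.inr ⟨s(i, k), hnd _ _ hik⟩))
        (Finset.mem_filter.2 ⟨Finset.mem_univ _, s(i, k), hnd _ _ hik, rfl,
          ⟨i, k, rfl, hik, hres⟩, fun ⟨t, ht, h⟩ => hnh t ht h⟩)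
      exact ⟨(Finset.mem_filter.1 h1).2.1, (Finset.mem_filter.1 h1).2.2.1⟩
    · right
      have hno : ¬ (θ (F (Sum.inr (Sum.inr ⟨s(i, k), hnd _ _ hik⟩))) < qi q 9 ∨
          π - qi q 9 < θ (F (Sum.inr (Sum.inr ⟨s(i, k), hnd _ _ hik⟩)))) := by
        intro h
        obtain ⟨z, hz1, hz2⟩ := hextr _ h
        have h3 : z = Sum.inr (Sum.inr ⟨s(i, k), hnd _ _ hik⟩) := by
          apply F.injective
          rw [hFZ z hz1, hz2]
        rw [h3] at hz1
        rcases hz1 with ⟨t, ht, h4⟩ | h4 | h4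
        · exact hnh t ht h4
        · exact hFnot i k hFi hFk h4
        · exact hFnop i k hFi hFk h4
      push Not at hno
      exact ⟨hres, hno.1, hno.2⟩

end Pool.Agent.Helper72.RA
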